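import Pool.Agent.Run7.h842.WR.YH

/-!
# Piece YB of the project WR (helper638): the windows above a row
-/

set_option autoImplicit false

namespace Run7.h842.WR

open Pool.Agent.Run7.h638.WR

/-- **YB** -/
theorem t_YB : YB := by
  intro K Γ Q _ prog w θ c hw hrow hlen
  obtain ⟨⟨s0, h0⟩, hcell, hJ⟩ := hrow
  obtain ⟨q, S⟩ := c
  simp only at h0 hcell hlen
  obtain ⟨s1, h1⟩ := hcell 1 le_rfl hw
  refine ⟨?_, ?_⟩
  · intro c' hstep hlen' j hj
    cases hp : prog q with
    | halt acc => simp [stepM, hp] at hstep
    | push k o q' =>
      have hc' : c' = (q', Function.update S k (o :: S k)) := by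
        simpa [stepM, hp] using hstep.symm
      subst hc'
      simp only at hlen'
      have hk : (S k).length + 1 ≤ w := by
        have := hlen' k
        simpa using this
      rcases Nat.eq_zero_or_pos j with hj0 | hj0
      · subst hj0
        rw [h0, h1, rrow_zero, rrow_cell w _ (0 + 1) (by omega) (by omega)]
        simp only [VR, hp]
        exact ⟨_, trivial, rfl, by simp⟩
      · obtain ⟨i, rfl⟩ : ∃ i, j = i + 1 := ⟨j - 1, by omega⟩
        obtain ⟨s, hs⟩ := hcell (i + 1) (by omega) hj
        rcases hj.eq_or_lt with hjw | hjw
        · rw [hs, hJ (i + 1 + 1) (by omega), rrow_cell w _ (i + 1) (by omega) hj,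
            rrow_J w _ (i + 1 + 1) (by omega)]
          simp only [VR, hp]
          refine ⟨trivial, ?_, _, rfl, ?_⟩
          · rw [List.getElem?_eq_none]; omega
          · intro k' hk'
            simp [Function.update_of_ne hk']
        · obtain ⟨s', hs'⟩ := hcell (i + 1 + 1) (by omega) (by omega)
          rw [hs, hs', rrow_cell w _ (i + 1) (by omega) hj,
            rrow_cell w _ (i + 1 + 1) (by omega) (by omega)]
          simp only [VR, hp]
          refine ⟨_, _, rfl, rfl, ?_, ?_⟩
          · simp
          · intro k' hk'
            simp [Function.update_of_ne hk']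
    | pop k f =>
      cases hk : S k with
      | nil => simp [stepM, hp, hk] at hstep
      | cons o z =>
        have hc' : c' = (f o, Function.update S k z) := by
          simpa [stepM, hp, hk] using hstep.symm
        subst hc'
        have hkl : z.length + 1 ≤ w := by
          have := hlen k
          rw [hk] at this
          simpa using this
        rcases Nat.eq_zero_or_pos j with hj0 | hj0
        · subst hj0
          rw [h0, h1, rrow_zero, rrow_cell w _ (0 + 1) (by omega) (by omega)]
          simp only [VR, hp]
          exact ⟨_, o, by simp [hk], rfl, rfl⟩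
        · obtain ⟨i, rfl⟩ : ∃ i, j = i + 1 := ⟨j - 1, by omega⟩
          obtain ⟨s, hs⟩ := hcell (i + 1) (by omega) hj
          rcases hj.eq_or_lt with hjw | hjw
          · rw [hs, hJ (i + 1 + 1) (by omega), rrow_cell w _ (i + 1) (by omega) hj,
              rrow_J w _ (i + 1 + 1) (by omega)]
            simp only [VR, hp]
            refine ⟨trivial, _, _, rfl, ?_, ?_⟩
            · simp only [Function.update_self]
              rw [List.getElem?_eq_none]; omega
            · intro k' hk'
              simp [Function.update_of_ne hk']
          · obtain ⟨s', hs'⟩ := hcell (i + 1 + 1) (by omega) (by omega)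
            rw [hs, hs', rrow_cell w _ (i + 1) (by omega) hj,
              rrow_cell w _ (i + 1 + 1) (by omega) (by omega)]
            simp only [VR, hp]
            refine ⟨_, _, _, rfl, rfl, ?_, ?_⟩
            · simp [hk]
            · intro k' hk'
              simp [Function.update_of_ne hk']
  · intro hp j hj
    simp only at hp
    rcases Nat.eq_zero_or_pos j with hj0 | hj0
    · subst hj0
      rw [h0, h1]
      simp only [VR, hp]
      exact ⟨trivial, trivial⟩
    · obtain ⟨s, hs⟩ := hcell j hj0 hj
      rcases hj.eq_or_lt with hjw | hjw
      · rw [hs, hJ (j + 1) (by omega)]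
        simp only [VR, hp]
        exact ⟨trivial, trivial⟩
      · obtain ⟨s', hs'⟩ := hcell (j + 1) (by omega) (by omega)
        rw [hs, hs']
        simp only [VR, hp]
        exact ⟨trivial, trivial⟩

end Run7.h842.WR
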