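import Pool.Agent.Run7.h842.WR.YB

/-!
# Piece YD of the project WR (helper638): a machine that accepts has a tiling of a torus
-/

set_option autoImplicit false

namespace Run7.h842.WR

open Pool.Agent.Run7.h638.WR

section
variable {K Γ Q : Type}

/-- the rows -/
def BB (t w L : ℕ) (q0 : Q) (S0 : K → List Γ) (f : ℕ → Q × (K → List Γ)) (i j : ℕ) : Base K Γ Q :=
  if i = 0 then zrow w L q0 S0 j else if i ≤ t then rrow w (f i) j else .J

/-- the second components -/
def io (L i j : ℕ) : ℕ := if i = 0 ∧ j ≤ L then j + 1 else 0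

end

/-- **YD** -/
theorem t_YD : YD := by
  intro hYA hYB hYH hYC K Γ Q iK iF prog e q0 S0 L hL hS ⟨c, hreach, hacc⟩
  obtain ⟨t, w, f, hLw, hw, hf0, hft, hstep, hlen⟩ := hYA K Γ Q iK iF prog (q0, S0) c L hreach
  set B := BB t w L q0 S0 f with hB
  have hB0 : ∀ j, B 0 j = zrow w L q0 S0 j := fun j => by simp [hB, BB]
  have hBi : ∀ i j, 1 ≤ i → i ≤ t → B i j = rrow w (f i) j := fun i j h1 h2 => by
    simp [hB, BB, h2, show i ≠ 0 by omega]
  have hBt : ∀ j, B (t + 1) j = .J := fun j => by simp [hB, BB]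
  have hYHf := fun i => hYH K Γ Q w L q0 S0 (f i) hL hLw hS
  -- the rows
  have hrow : ∀ i ≤ t, IsRow w (B i) (f i) := by
    intro i hi
    rcases Nat.eq_zero_or_pos i with h0 | h0
    · subst h0
      rw [hf0]
      have : B 0 = zrow w L q0 S0 := funext hB0
      rw [this]
      exact (hYHf 0).1
    · have : B i = rrow w (f i) := funext fun j => hBi i j h0 hi
      rw [this]
      exact (hYHf i).2.1
  have hHR1 : ∀ i ≤ t, ∀ j ≤ w, HR (B i j) (B i (j + 1)) := by
    intro i hi j hj
    rcases Nat.eq_zero_or_pos i with h0 | h0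
    · subst h0
      rw [hB0, hB0]
      exact (hYHf 0).2.2.1 j hj
    · rw [hBi i j h0 hi, hBi i _ h0 hi]
      exact (hYHf i).2.2.2.1 j hj
  have hHR2 : ∀ i ≤ t, HR (B i (w + 1)) (B i 0) := by
    intro i hi
    rcases Nat.eq_zero_or_pos i with h0 | h0
    · subst h0
      rw [hB0, hB0]
      exact (hYHf 0).2.2.2.2.1
    · rw [hBi i _ h0 hi, hBi i _ h0 hi]
      exact (hYHf i).2.2.2.2.2.1
  have hmod1 : ∀ j, j ≤ w → (j + 1) % (w + 2) = j + 1 := fun j hj => Nat.mod_eq_of_lt (by omega)
  have hmod2 : (w + 1 + 1) % (w + 2) = 0 := Nat.mod_self _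
  have hmod3 : ∀ i, i ≤ t → (i + 1) % (t + 2) = i + 1 := fun j hj => Nat.mod_eq_of_lt (by omega)
  have hmod4 : (t + 1 + 1) % (t + 2) = 0 := Nat.mod_self _
  have hHR : ∀ i < t + 2, ∀ j < w + 2, HR (B i j) (B i ((j + 1) % (w + 2))) := by
    intro i hi j hj
    rcases Nat.lt_or_ge t i with h | h
    · have : i = t + 1 := by omega
      subst this
      rw [hBt, hBt]
      trivial
    · rcases Nat.lt_or_ge w j with h' | h'
      · have : j = w + 1 := by omega
        subst this
        rw [hmod2]
        exact hHR2 i h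
      · rw [hmod1 j h']
        exact hHR1 i h j h'
  have hVR : ∀ i < t + 2, ∀ j < w + 2, VR prog (B i j) (B i ((j + 1) % (w + 2)))
      (B ((i + 1) % (t + 2)) j) (B ((i + 1) % (t + 2)) ((j + 1) % (w + 2))) := by
    intro i hi j hj
    rcases Nat.lt_trichotomy i t with h | h | h
    · -- i < t
      rw [hmod3 i h.le]
      rcases Nat.lt_or_ge w j with h' | h'
      · have : j = w + 1 := by omega
        subst this
        rw [hmod2]
        obtain ⟨⟨s, hs⟩, _, hJ⟩ := hrow i h.le
        rw [hs, hJ (w + 1) (by omega), hBi (i + 1) _ (by omega) (by omega),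
          hBi (i + 1) _ (by omega) (by omega), rrow_zero, rrow_J w _ (w + 1) (by omega)]
        exact ⟨rfl, Or.inr ⟨_, rfl⟩⟩
      · rw [hmod1 j h', hBi (i + 1) _ (by omega) (by omega), hBi (i + 1) _ (by omega) (by omega)]
        exact (hYB K Γ Q iK prog w (B i) (f i) hw (hrow i h.le) (hlen i h.le)).1 _ (hstep i h)
          (hlen (i + 1) (by omega)) j h'
    · -- i = t
      subst h
      rw [hmod3 i le_rfl, hBt, hBt]
      rcases Nat.lt_or_ge w j with h' | h'
      · have : j = w + 1 := by omega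
        subst this
        rw [hmod2]
        obtain ⟨⟨s, hs⟩, _, hJ⟩ := hrow i le_rfl
        rw [hs, hJ (w + 1) (by omega)]
        exact ⟨rfl, Or.inl rfl⟩
      · rw [hmod1 j h']
        refine (hYB K Γ Q iK prog w (B i) (f i) hw (hrow i le_rfl) (hlen i le_rfl)).2 ?_ j h'
        rw [hft]; exact hacc
    · have : i = t + 1 := by omega
      subst this
      rw [hBt, hBt, hmod4, hB0, hB0]
      exact ⟨(hYHf 0).2.2.2.2.2.2.1 _, (hYHf 0).2.2.2.2.2.2.1 _⟩
  have hTile : ∀ i < t + 2, ∀ j, TileOk e q0 S0 L (e (B i j), io L i j) := by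
    intro i hi j
    rcases Nat.eq_zero_or_pos i with h0 | h0
    · subst h0
      rcases Nat.lt_or_ge L j with h' | h'
      · left
        refine ⟨by simp [io, h'], B 0 j, ?_, rfl⟩
        rw [hB0]
        exact (hYHf 0).2.2.2.2.2.2.2.1 j h'
      · right
        refine ⟨?_, ?_, ?_⟩
        · simp [io, h']
        · simp [io, h']
        · simp only [io, h', and_self, if_true, Nat.add_sub_cancel]
          rw [hB0]
          simp [zrow, h']
    · left
      refine ⟨by simp [io, show i ≠ 0 by omega], B i j, ?_, rfl⟩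
      rcases Nat.lt_or_ge t i with h | h
      · have : i = t + 1 := by omega
        subst this
        rw [hBt]
        trivial
      · rw [hBi i j h0 h]
        exact (hYHf i).2.2.2.2.2.2.2.2 j
  have hIdx : ∀ i < t + 2, ∀ j < w + 2, IdxOk L (io L i j) (io L i ((j + 1) % (w + 2))) := by
    intro i hi j hj
    rcases Nat.eq_zero_or_pos i with h0 | h0
    · subst h0
      rcases Nat.lt_or_ge w j with h' | h'
      · have : j = w + 1 := by omega
        subst this
        rw [hmod2]
        left
        simp [io]; omega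
      · rw [hmod1 j h']
        rcases Nat.lt_trichotomy j L with h1 | h1 | h1
        · right; left
          simp [io, h1.le, show j + 1 ≤ L by omega]
        · right; right
          simp [io, h1]
        · left
          simp [io, show ¬ j ≤ L by omega, show ¬ j + 1 ≤ L by omega]
    · left
      simp [io, show i ≠ 0 by omega]
  have hn : NeZero (t + 2) := ⟨by omega⟩
  have hm : NeZero (w + 2) := ⟨by omega⟩
  obtain ⟨T, hT0, hT⟩ := hYC (t + 2) (w + 2) hn hm (fun i j => (e (B i j), io L i j))
    (OkW prog e q0 S0 L) (by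
      intro i hi j hj
      have hi' : (i + 1) % (t + 2) < t + 2 := Nat.mod_lt _ (by omega)
      have hj' : (j + 1) % (w + 2) < w + 2 := Nat.mod_lt _ (by omega)
      refine ⟨⟨B i j, B i ((j + 1) % (w + 2)), B ((i + 1) % (t + 2)) j,
        B ((i + 1) % (t + 2)) ((j + 1) % (w + 2)), rfl, rfl, rfl, rfl, hHR i hi j hj,
        hHR _ hi' j hj, hVR i hi j hj⟩, hTile i hi j, hTile i hi _, hTile _ hi' j, hTile _ hi' _,
        hIdx i hi j hj⟩)
  refine ⟨t + 2, w + 2, hn, hm, T, ?_, hT⟩
  rw [hT0]
  simp only [hB0, zrow_zero, seed, io]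
  simp

end Run7.h842.WR
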