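import Pool.Agent.Run7.h638.WR.Iface

/-!
# Piece YH of the project WR (helper638): the rows `zrow` and `rrow`
-/

set_option autoImplicit false

namespace Run7.h842.WR

open Pool.Agent.Run7.h638.WR

variable {K Γ Q : Type}

lemma zrow_zero (w L : ℕ) (q0 : Q) (S0 : K → List Γ) :
    zrow w L q0 S0 0 = Base.ctl .sx q0 := by
  simp [zrow, srow]

lemma zrow_sx (w L : ℕ) (q0 : Q) (S0 : K → List Γ) (j : ℕ) (h1 : 1 ≤ j) (h2 : j ≤ L) :
    zrow w L q0 S0 j = Base.cell .sx q0 (fun k => (S0 k)[j - 1]?) := by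
  simp [zrow, srow, h2, show j ≠ 0 by omega]

lemma zrow_sb (w L : ℕ) (q0 : Q) (S0 : K → List Γ) (j : ℕ) (h1 : L < j) (h2 : j ≤ w) :
    zrow w L q0 S0 j = Base.cell .sb q0 (fun _ => none) := by
  simp [zrow, h2, not_le.2 h1]

lemma zrow_J (w L : ℕ) (q0 : Q) (S0 : K → List Γ) (j : ℕ) (hL : L ≤ w) (h1 : w < j) :
    zrow w L q0 S0 j = Base.J := by
  simp [zrow, show ¬ j ≤ L by omega, show ¬ j ≤ w by omega]

lemma rrow_zero (w : ℕ) (c : Q × (K → List Γ)) : rrow w c 0 = Base.ctl .run c.1 := by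
  simp [rrow]

lemma rrow_cell (w : ℕ) (c : Q × (K → List Γ)) (j : ℕ) (h1 : 1 ≤ j) (h2 : j ≤ w) :
    rrow w c j = Base.cell .run c.1 (fun k => (c.2 k)[j - 1]?) := by
  simp [rrow, h2, show j ≠ 0 by omega]

lemma rrow_J (w : ℕ) (c : Q × (K → List Γ)) (j : ℕ) (h1 : w < j) :
    rrow w c j = Base.J := by
  simp [rrow, show j ≠ 0 by omega, show ¬ j ≤ w by omega]

/-- **YH** -/
theorem t_YH : YH := by
  intro K Γ Q w L q0 S0 c hL hLw hS
  refine ⟨⟨⟨.sx, zrow_zero w L q0 S0⟩, ?_, ?_⟩, ⟨⟨.run, rrow_zero w c⟩, ?_, ?_⟩, ?_, ?_, ?_, ?_, ?_,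
    ?_, ?_⟩
  · intro j h1 h2
    rcases le_or_gt j L with h | h
    · exact ⟨.sx, zrow_sx w L q0 S0 j h1 h⟩
    · refine ⟨.sb, ?_⟩
      rw [zrow_sb w L q0 S0 j h h2]
      congr 1
      funext k
      have := hS k
      show none = (S0 k)[j - 1]?
      rw [List.getElem?_eq_none (by omega)]
  · intro j h
    exact zrow_J w L q0 S0 j hLw h
  · intro j h1 h2
    exact ⟨.run, rrow_cell w c j h1 h2⟩
  · intro j h
    exact rrow_J w c j h
  · intro j hj
    rcases Nat.eq_zero_or_pos j with h0 | h0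
    · subst h0
      rw [zrow_zero, zrow_sx w L q0 S0 (0 + 1) (by omega) (by omega)]
      exact ⟨rfl, rfl⟩
    · rcases lt_or_ge j L with h1 | h1
      · rw [zrow_sx w L q0 S0 j h0 h1.le, zrow_sx w L q0 S0 (j + 1) (by omega) (by omega)]
        exact ⟨rfl, Or.inr (Or.inl ⟨rfl, rfl⟩)⟩
      · rcases hj.eq_or_lt with h2 | h2
        · rw [zrow_J w L q0 S0 (j + 1) hLw (by omega)]
          rcases h1.eq_or_lt with h3 | h3
          · rw [zrow_sx w L q0 S0 j h0 (by omega)]
            trivial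
          · rw [zrow_sb w L q0 S0 j h3 (by omega)]
            trivial
        · rw [zrow_sb w L q0 S0 (j + 1) (by omega) (by omega)]
          rcases h1.eq_or_lt with h3 | h3
          · rw [zrow_sx w L q0 S0 j h0 (by omega)]
            exact ⟨rfl, Or.inr (Or.inr ⟨by simp, rfl, rfl⟩)⟩
          · rw [zrow_sb w L q0 S0 j h3 (by omega)]
            exact ⟨rfl, Or.inr (Or.inr ⟨by simp, rfl, rfl⟩)⟩
  · intro j hj
    rcases Nat.eq_zero_or_pos j with h0 | h0
    · subst h0
      rw [rrow_zero, rrow_cell w c (0 + 1) (by omega) (by omega)]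
      exact ⟨rfl, rfl⟩
    · rcases hj.eq_or_lt with h2 | h2
      · rw [rrow_J w c (j + 1) (by omega), rrow_cell w c j h0 (by omega)]
        trivial
      · rw [rrow_cell w c j h0 (by omega), rrow_cell w c (j + 1) (by omega) (by omega)]
        exact ⟨rfl, Or.inl ⟨rfl, rfl⟩⟩
  · rw [zrow_zero, zrow_J w L q0 S0 (w + 1) hLw (by omega)]
    show St.sx ≠ St.sb
    simp
  · rw [rrow_zero, rrow_J w c (w + 1) (by omega)]
    show St.run ≠ St.sb
    simp
  · intro j
    rcases Nat.eq_zero_or_pos j with h0 | h0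
    · subst h0
      rw [zrow_zero]
      show St.sx ≠ St.run
      simp
    · rcases le_or_gt j L with h1 | h1
      · rw [zrow_sx w L q0 S0 j h0 h1]
        show St.sx ≠ St.run
        simp
      · rcases le_or_gt j w with h2 | h2
        · rw [zrow_sb w L q0 S0 j h1 h2]
          show St.sb ≠ St.run
          simp
        · rw [zrow_J w L q0 S0 j hLw h2]
          trivial
  · intro j h1
    rcases le_or_gt j w with h2 | h2
    · rw [zrow_sb w L q0 S0 j h1 h2]
      show St.sb ≠ St.sx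
      simp
    · rw [zrow_J w L q0 S0 j hLw h2]
      trivial
  · intro j
    rcases Nat.eq_zero_or_pos j with h0 | h0
    · subst h0
      rw [rrow_zero]
      show St.run ≠ St.sx
      simp
    · rcases le_or_gt j w with h2 | h2
      · rw [rrow_cell w c j h0 h2]
        show St.run ≠ St.sx
        simp
      · rw [rrow_J w c j h2]
        trivial

end Run7.h842.WR
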